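import Mathlib
import Pool.Agent.H384R2.Fatou
import Pool.Agent.TH224.SC.Defs
import Pool.Agent.Q75.BwG

/-!
# A multiply connected wandering domain with uncountably many singleton complementary components

Q1 of the problem asks whether a multiply connected wandering domain with infinite inner connectivity
can have a singleton complementary component, and further uncountably many.  The answer is yes.

Let `a_0 = 1`, `a_{n+1} = 4000 a_n ∏_{j ≤ n} |1 - (a_n / 2)² / a_j²|` and
`f(z) = 8·10⁶ z ∏_j (1 - z² / a_j²)`.  The annuli `10 a_n < |z| < a_{n+1} / 200` are mapped into each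
other, so they lie in Fatou components `U_n = f^n(U_0)`.  The circles of radius `a_n / (64 (n + 1))`
around the zeros `± a_n` lie in `U_n` as well, and `f` maps the discs inside univalently, with large
derivative, onto domains containing the corresponding discs around `± a_{n+1}`.  Hence for every
sequence of signs there is exactly one point `z` such that `f^n(z)` is in the disc around the zero
`± a_n` with the prescribed sign for all `n`, and `{z}` is a component of the complement of `U_0`.
-/

set_option autoImplicit false

namespace Pool.Agent.Results.MP_571b65_an.SingletonHoles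

open Set Pool.Agent.H384R2.Fatou Pool.Agent.TH224.SC Pool.Agent.Q75

/-- **Q1 has a positive answer.** There are a transcendental entire function `f` and a Fatou
component `U` of `f` which is a bounded, multiply connected wandering domain (with `f^n(U)` a Fatou
component for every `n`), has infinite inner connectivity, and has uncountably many complementary
components which are singletons. -/
theorem result : ∃ (f : ℂ → ℂ) (U : Set ℂ),
    TransEntire f ∧
    (∃ p ∈ FatouSet f, U = FatouComponent f p) ∧
    IsWanderingDomain f U ∧
    Bornology.IsBounded U ∧
    (∀ n : ℕ, ∃ p ∈ FatouSet f, f^[n] '' U = FatouComponent f p) ∧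
    (∃ x ∈ Uᶜ, Bornology.IsBounded (connectedComponentIn Uᶜ x)) ∧
    InfInner f U ∧
    ¬ {x : ℂ | x ∈ Uᶜ ∧ connectedComponentIn Uᶜ x = {x}}.Countable := by
  refine ⟨Bw.f, Bw.U 0, Bw.transE, ⟨_, Bw.X_F 0, rfl⟩, Bw.wandering, Bw.U_bounded 0, fun n => ?_,
    ⟨0, Bw.mult⟩, Bw.infInner, Bw.uncountable_single⟩
  exact ⟨_, Bw.X_F n, by rw [Bw.U_iter_eq, zero_add]; rfl⟩

end Pool.Agent.Results.MP_571b65_an.SingletonHoles
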